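import Pool.Agent.Helper3.FewP.Goals2

/-!
# Packet STRIP-GEN (MP_d3128a_ag)
-/

set_option autoImplicit false

namespace Pool.Agent.Helper89.FewP

open Pool.Agent.Helper3.FewP

theorem t : G_DET → G_MIN → G_GEN := by
  intro hD hM F R Γ κ ι ρ _ _ _ _ _ _ _ K ℓ lam M p i0 γ a h1 h2 h3
  obtain ⟨f, -, hf⟩ := hM F ρ ι _ h3
  exact ⟨f, hD F R Γ κ ι K ℓ lam (Matrix.of fun (x c : ι) => M (f x) c) (fun x => p (f x)) i0 γ
    (Matrix.of fun (x c : ι) => a (f x) c) (fun x c δ h => h1 (f x) c δ h)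
    (fun x c h => h2 (f x) c h) hf⟩

end Pool.Agent.Helper89.FewP
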